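import Pool.Agent.H50.NC.Targets

/-!
# MP_816b90_co, row RED: the reduction
-/

set_option autoImplicit false

namespace Pool.Agent.H50.NCK

open Pool.Agent.H48.ER Pool.Agent.H50.NC

variable {V : Type}

theorem epr_perm {G : SimpleGraph V} {a b : Fin 3 → V} {n : Fin 3 → ℕ} {P : Fin 3 → Set V}
    (h : EPr G a b n P) (σ : Fin 3 → Fin 3) (hσ : Function.Injective σ) :
    EPr G (fun i => a (σ i)) (fun i => b (σ i)) (fun i => n (σ i)) (fun i => P (σ i)) :=
  ⟨h.1.perm σ hσ, fun i => h.2 (σ i)⟩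

theorem pf_RED (hRA : T_RA) (hRB : T_RB) (hDC : T_DC) : T_RED := by
  intro V G a b n P S X j h1 h2 hP hX hj
  have two : ∀ σ : Fin 3 → Fin 3, Function.Injective σ → P (σ 0) ⊆ S → P (σ 1) ⊆ S →
      C3 G S ∨ C4 G S ∨ Sm G S := fun σ hσ k0 k1 =>
    Or.inr (Or.inr (hDC V G _ _ _ _ S X h1 h2 (epr_perm hP σ hσ) hX k0 k1))
  have one : ∀ σ : Fin 3 → Fin 3, Function.Injective σ → P (σ 0) ⊆ S → ¬ P (σ 1) ⊆ S →
      ¬ P (σ 2) ⊆ S → C3 G S ∨ C4 G S ∨ Sm G S := fun σ hσ k0 k1 k2 =>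
    Or.inr (hRB V G _ _ _ _ S X h1 h2 (epr_perm hP σ hσ) hX k0 k1 k2)
  by_cases k0 : P 0 ⊆ S
  · by_cases k1 : P 1 ⊆ S
    · exact two ![0, 1, 2] (by decide) k0 k1
    · by_cases k2 : P 2 ⊆ S
      · exact two ![0, 2, 1] (by decide) k0 k2
      · exact one ![0, 1, 2] (by decide) k0 k1 k2
  · by_cases k1 : P 1 ⊆ S
    · by_cases k2 : P 2 ⊆ S
      · exact two ![1, 2, 0] (by decide) k1 k2
      · exact one ![1, 0, 2] (by decide) k1 k0 k2
    · by_cases k2 : P 2 ⊆ S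
      · exact one ![2, 0, 1] (by decide) k2 k0 k1
      · have hall : ∀ i, ¬ P i ⊆ S := by
          intro i
          fin_cases i
          · exact k0
          · exact k1
          · exact k2
        rcases hRA V G a b n P S X j h1 h2 hP hX hj hall with h | h
        · exact Or.inl h
        · exact Or.inr (Or.inr h)

end Pool.Agent.H50.NCK
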