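import Pool.Agent.H50.NC.Targets

/-!
# MP_816b90_co, row F1: a major which is not adjacent to a vertex of the first type
-/

set_option autoImplicit false

namespace Pool.Agent.H50.NCK

open Pool.Agent.H48.ER Pool.Agent.H50.NC

theorem pf_F1 (hTYP : T_TYP) (hKZ : T_KZ) : T_F1 := by
  intro V G a b n P i S z w h1 h2 hS hz hAz hw hwz hMa hMb j hj
  obtain ⟨a', n', P', hS', hi, hj'⟩ := hKZ V G a b n P i S z h1 h2 hS hz hAz
  -- neighbours of `w` among the corners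
  have hb : ∃ k, k ≠ i ∧ G.Adj w (b k) := by
    rcases hMb with h | ⟨_, k, hk, h⟩
    · exact ⟨j, hj, h j hj⟩
    · exact ⟨k, hk, h⟩
  have ha : ∃ k, k ≠ i ∧ G.Adj w (a k) := by
    rcases hMa with h | ⟨_, k, hk, h⟩
    · exact ⟨j, hj, h j hj⟩
    · exact ⟨k, hk, h⟩
  rcases hTYP V G a' b n' P' i S w h1 h2 hS' hw with h | h | h
  · obtain ⟨k, hk, hwk⟩ := hb
    obtain ⟨l, hl, e⟩ := (h (b k) ⟨k, hk, hS'.pr.1.b_mem k⟩).1 hwk
    exact absurd e.symm (hS'.pr.1.a_ne_b l k)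
  · obtain ⟨k, hk, hwk⟩ := ha
    have hak : a k ∈ P' k := by
      rw [← (hj' k hk).1]
      exact hS'.pr.1.a_mem k
    obtain ⟨l, hl, e⟩ := (h (a k) ⟨k, hk, hak⟩).1 hwk
    rw [← (hj' k hk).1] at e
    exact absurd e (hS'.pr.1.a_ne_b k l)
  · rcases h.1 with g | ⟨g, _⟩
    · rw [← (hj' j hj).1]
      exact g j hj
    · rw [hi] at g
      exact absurd g hwz

end Pool.Agent.H50.NCK
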